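import Mathlib

set_option autoImplicit false

/-!
Piecewise linear maps of `ι → ℝ`: a continuous piecewise linear map `w` with a continuous left
inverse is surjective, hence the left inverse is a two-sided inverse.
-/

namespace Pool.Agent.Helper45.HopfFD

open Matrix Set Topology

variable {ι : Type} [Fintype ι]

/-- On a preconnected set on which no two of the matrices agree, `w` is given by one matrix. -/
lemma single_matrix (w : (ι → ℝ) → (ι → ℝ)) (hw : Continuous w) (M : Finset (Matrix ι ι ℝ))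
    (hwM : ∀ x, ∃ A ∈ M, w x = A.mulVec x) (C : Set (ι → ℝ)) (hC : IsPreconnected C)
    (y₀ : ι → ℝ) (hy₀ : y₀ ∈ C)
    (hdis : ∀ y ∈ C, ∀ A ∈ M, ∀ A' ∈ M, A ≠ A' → A.mulVec y ≠ A'.mulVec y) :
    ∃ A ∈ M, ∀ y ∈ C, w y = A.mulVec y := by
  obtain ⟨A₀, hA₀, hwA₀⟩ := hwM y₀
  refine ⟨A₀, hA₀, ?_⟩
  have hcl : ∀ A : Matrix ι ι ℝ, IsClosed {y | w y = A.mulVec y} := by
    intro A
    exact isClosed_eq hw (Continuous.matrix_mulVec continuous_const continuous_id)
  have h1 : IsClosed {y | w y = A₀.mulVec y} := hcl A₀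
  have h2 : IsClosed (⋃ A ∈ M.erase A₀, {y | w y = A.mulVec y}) :=
    (M.erase A₀).finite_toSet.isClosed_biUnion (fun A _ => hcl A)
  have hcov : C ⊆ {y | w y = A₀.mulVec y} ∪ (⋃ A ∈ M.erase A₀, {y | w y = A.mulVec y}) := by
    intro y hy
    obtain ⟨A, hA, hwA⟩ := hwM y
    by_cases h : A = A₀
    · left; subst h; exact hwA
    · right
      simp only [Set.mem_iUnion]
      exact ⟨A, Finset.mem_erase.mpr ⟨h, hA⟩, hwA⟩
  have hdisj : C ∩ ({y | w y = A₀.mulVec y} ∩
      (⋃ A ∈ M.erase A₀, {y | w y = A.mulVec y})) = ∅ := by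
    rw [Set.eq_empty_iff_forall_notMem]
    rintro y ⟨hy, hy1, hy2⟩
    simp only [Set.mem_iUnion] at hy2
    obtain ⟨A, hA, hwA⟩ := hy2
    have hA' := Finset.mem_erase.mp hA
    exact hdis y hy A hA'.2 A₀ hA₀ hA'.1 (hwA.symm.trans hy1)
  rcases (isPreconnected_iff_subset_of_disjoint_closed.mp hC) _ _ h1 h2 hcov hdisj with h | h
  · exact h
  · exfalso
    have := h hy₀
    simp only [Set.mem_iUnion] at this
    obtain ⟨A, hA, hwA⟩ := this
    have hA' := Finset.mem_erase.mp hA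
    exact hdis y₀ hy₀ A hA'.2 A₀ hA₀ hA'.1 (hwA.symm.trans hwA₀)

/-- If an injective map is equal to a matrix on a nonempty open set, the matrix is injective. -/
lemma mulVec_injective_of_open (w : (ι → ℝ) → (ι → ℝ)) (hinj : Function.Injective w)
    (A : Matrix ι ι ℝ) (C : Set (ι → ℝ)) (hC : IsOpen C) (y₀ : ι → ℝ) (hy₀ : y₀ ∈ C)
    (hA : ∀ y ∈ C, w y = A.mulVec y) : Function.Injective A.mulVecLin := by
  rw [← LinearMap.ker_eq_bot, LinearMap.ker_eq_bot']
  intro u hu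
  have hcont : Continuous (fun s : ℝ => y₀ + s • u) := by fun_prop
  have hmem : ∀ᶠ s in 𝓝 (0 : ℝ), y₀ + s • u ∈ C := by
    apply hcont.continuousAt.eventually
    simpa using hC.mem_nhds hy₀
  obtain ⟨s, hs, hs0⟩ := ((hmem.filter_mono nhdsWithin_le_nhds).and
    (self_mem_nhdsWithin : ∀ᶠ s in 𝓝[≠] (0 : ℝ), s ∈ ({0}ᶜ : Set ℝ))).exists
  have h1 : w (y₀ + s • u) = w y₀ := by
    rw [hA _ hs, hA _ hy₀]
    have hu' : A.mulVec u = 0 := by simpa using hu
    rw [Matrix.mulVec_add, Matrix.mulVec_smul, hu']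
    simp
  have h2 := hinj h1
  have h3 : s • u = 0 := by simpa using h2
  rcases smul_eq_zero.mp h3 with h | h
  · exact absurd h hs0
  · exact h

/-- The linear functional `y ↦ r ⬝ᵥ y`. -/
def dotL (r : ι → ℝ) : (ι → ℝ) →ₗ[ℝ] ℝ where
  toFun y := r ⬝ᵥ y
  map_add' := fun a b => by simp [dotProduct_add]
  map_smul' := fun c a => by simp [dotProduct_smul]

@[simp] lemma dotL_apply (r y : ι → ℝ) : dotL r y = r ⬝ᵥ y := rfl

lemma dotL_continuous (r : ι → ℝ) : Continuous (fun y : ι → ℝ => r ⬝ᵥ y) := by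
  have : Continuous (dotL r) := LinearMap.continuous_of_finiteDimensional _
  exact this

lemma dot_self_pos {r : ι → ℝ} (hr : r ≠ 0) : 0 < r ⬝ᵥ r := by
  have h0 : 0 ≤ r ⬝ᵥ r := by
    simp only [dotProduct]
    exact Finset.sum_nonneg (fun i _ => mul_self_nonneg _)
  rcases h0.lt_or_eq with h | h
  · exact h
  · exfalso
    apply hr
    have := dotProduct_self_eq_zero.mp h.symm
    exact this

lemma ev_ball {X : Type} [TopologicalSpace X] (f : X → (ι → ℝ)) (hf : Continuous f) (a : X)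
    (x : ι → ℝ) (ε : ℝ) (h : f a ∈ Metric.ball x ε) : ∀ᶠ s in 𝓝 a, f s ∈ Metric.ball x ε :=
  hf.continuousAt (Metric.isOpen_ball.mem_nhds h)

/-- On each closed side of a wall the map is given by one injective matrix. -/
lemma half (w : (ι → ℝ) → (ι → ℝ)) (hw : Continuous w) (hinj : Function.Injective w)
    (M : Finset (Matrix ι ι ℝ)) (hwM : ∀ x, ∃ A ∈ M, w x = A.mulVec x) (x r : ι → ℝ)
    (hr : r ≠ 0) (hrx : r ⬝ᵥ x = 0) (ε : ℝ) (hε : 0 < ε)
    (hdis : ∀ y ∈ Metric.ball x ε, r ⬝ᵥ y ≠ 0 → ∀ A ∈ M, ∀ A' ∈ M, A ≠ A' →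
      A.mulVec y ≠ A'.mulVec y) :
    ∃ A : Matrix ι ι ℝ, Function.Injective A.mulVecLin ∧
      ∀ y ∈ Metric.ball x ε, 0 ≤ r ⬝ᵥ y → w y = A.mulVec y := by
  have hrr := dot_self_pos hr
  set Cp : Set (ι → ℝ) := Metric.ball x ε ∩ {y | 0 < r ⬝ᵥ y} with hCp
  have hconv : Convex ℝ Cp := by
    apply (convex_ball x ε).inter
    exact convex_halfSpace_gt (dotL r).isLinear 0
  have hopen : IsOpen Cp :=
    Metric.isOpen_ball.inter (isOpen_lt continuous_const (dotL_continuous r))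
  -- moving into the half space
  have hmove : ∀ y ∈ Metric.ball x ε, 0 ≤ r ⬝ᵥ y → ∀ᶠ t in 𝓝[>] (0 : ℝ), y + t • r ∈ Cp := by
    intro y hy hy0
    have hcont : Continuous (fun s : ℝ => y + s • r) := by fun_prop
    have h1 : ∀ᶠ s in 𝓝 (0 : ℝ), y + s • r ∈ Metric.ball x ε :=
      ev_ball _ hcont 0 x ε (by simpa using hy)
    have h2 : ∀ᶠ s in 𝓝[>] (0 : ℝ), s ∈ Set.Ioi (0 : ℝ) := self_mem_nhdsWithin
    filter_upwards [h1.filter_mono nhdsWithin_le_nhds, h2] with s hs1 hs2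
    refine ⟨hs1, ?_⟩
    simp only [Set.mem_ofPred_eq, dotProduct_add, dotProduct_smul, smul_eq_mul]
    have : 0 < s * (r ⬝ᵥ r) := mul_pos hs2 hrr
    linarith
  have hxb : x ∈ Metric.ball x ε := Metric.mem_ball_self hε
  obtain ⟨t₀, ht₀⟩ := (hmove x hxb (by rw [hrx])).exists
  obtain ⟨A, hA, hwA⟩ := single_matrix w hw M hwM Cp hconv.isPreconnected _ ht₀
    (fun y hy A hA A' hA' hne => hdis y hy.1 (ne_of_gt hy.2) A hA A' hA' hne)
  refine ⟨A, mulVec_injective_of_open w hinj A Cp hopen _ ht₀ hwA, ?_⟩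
  intro y hy hy0
  have hev := hmove y hy hy0
  have hc1 : Filter.Tendsto (fun s : ℝ => w (y + s • r)) (𝓝[>] 0) (𝓝 (w y)) := by
    have : Continuous (fun s : ℝ => w (y + s • r)) := by fun_prop
    have h := this.tendsto 0
    simp only [zero_smul, add_zero] at h
    exact h.mono_left nhdsWithin_le_nhds
  have hc2 : Filter.Tendsto (fun s : ℝ => A.mulVec (y + s • r)) (𝓝[>] 0) (𝓝 (A.mulVec y)) := by
    have : Continuous (fun s : ℝ => A.mulVec (y + s • r)) :=
      Continuous.matrix_mulVec continuous_const (by fun_prop)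
    have h := this.tendsto 0
    simp only [zero_smul, add_zero] at h
    exact h.mono_left nhdsWithin_le_nhds
  exact tendsto_nhds_unique_of_eventuallyEq hc1 hc2 (by
    filter_upwards [hev] with s hs using hwA _ hs)

/-- Local surjectivity at a point on exactly one wall. -/
lemma nhds_wall (w : (ι → ℝ) → (ι → ℝ)) (hw : Continuous w) (hinj : Function.Injective w)
    (M : Finset (Matrix ι ι ℝ)) (hwM : ∀ x, ∃ A ∈ M, w x = A.mulVec x) (x r : ι → ℝ)
    (hr : r ≠ 0) (hrx : r ⬝ᵥ x = 0) (ε : ℝ) (hε : 0 < ε)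
    (hdis : ∀ y ∈ Metric.ball x ε, r ⬝ᵥ y ≠ 0 → ∀ A ∈ M, ∀ A' ∈ M, A ≠ A' →
      A.mulVec y ≠ A'.mulVec y) : Set.range w ∈ 𝓝 (w x) := by
  have hrr := dot_self_pos hr
  obtain ⟨A, hAinj, hwA⟩ := half w hw hinj M hwM x r hr hrx ε hε hdis
  obtain ⟨A', hAinj', hwA'⟩ := half w hw hinj M hwM x (-r) (neg_ne_zero.mpr hr)
    (by rw [neg_dotProduct, hrx, neg_zero]) ε hε
    (fun y hy h => hdis y hy (fun h0 => h (by rw [neg_dotProduct, h0, neg_zero])))
  have hwA'' : ∀ y ∈ Metric.ball x ε, r ⬝ᵥ y ≤ 0 → w y = A'.mulVec y := by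
    intro y hy h
    exact hwA' y hy (by rw [neg_dotProduct]; linarith)
  let ea : (ι → ℝ) ≃ₗ[ℝ] (ι → ℝ) := LinearEquiv.ofInjectiveEndo _ hAinj
  let eb : (ι → ℝ) ≃ₗ[ℝ] (ι → ℝ) := LinearEquiv.ofInjectiveEndo _ hAinj'
  have hea : ∀ y, ea y = A.mulVec y := fun y => rfl
  have heb : ∀ y, eb y = A'.mulVec y := fun y => rfl
  have hxb : x ∈ Metric.ball x ε := Metric.mem_ball_self hε
  have hwx : w x = ea x := hwA x hxb (by rw [hrx])
  have hwx' : w x = eb x := hwA'' x hxb (by rw [hrx])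
  -- agreement on the wall
  have hwall : ∀ h : ι → ℝ, r ⬝ᵥ h = 0 → ea h = eb h := by
    intro h hh
    have hcont : Continuous (fun s : ℝ => x + s • h) := by fun_prop
    have hmem : ∀ᶠ s in 𝓝 (0 : ℝ), x + s • h ∈ Metric.ball x ε :=
      ev_ball _ hcont 0 x ε (by simpa using hε)
    obtain ⟨s, hs, hs0⟩ := ((hmem.filter_mono nhdsWithin_le_nhds).and
      (self_mem_nhdsWithin : ∀ᶠ s in 𝓝[≠] (0 : ℝ), s ∈ ({0}ᶜ : Set ℝ))).exists
    have hr0 : r ⬝ᵥ (x + s • h) = 0 := by
      rw [dotProduct_add, dotProduct_smul, hrx, hh]; simp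
    have e1 := hwA _ hs (by rw [hr0])
    have e2 := hwA'' _ hs (by rw [hr0])
    rw [← hea] at e1
    rw [← heb] at e2
    have e3 : ea (x + s • h) = eb (x + s • h) := e1.symm.trans e2
    rw [map_add, map_add, map_smul, map_smul, ← hwx, ← hwx'] at e3
    have e4 : s • ea h = s • eb h := add_left_cancel e3
    exact smul_right_injective _ (show s ≠ 0 from hs0) e4
  let G : (ι → ℝ) → (ι → ℝ) := fun y => ea.symm (eb y)
  have hGadd : ∀ a b, G (a + b) = G a + G b := fun a b => by simp [G]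
  have hGsmul : ∀ (s : ℝ) b, G (s • b) = s • G b := fun a b => by simp [G]
  have hGwall : ∀ h : ι → ℝ, r ⬝ᵥ h = 0 → G h = h := by
    intro h hh
    simp only [G]
    rw [← hwall h hh]; simp
  have hGx : G x = x := hGwall x hrx
  set c : ℝ := (r ⬝ᵥ G r) / (r ⬝ᵥ r) with hc
  have hGc : ∀ y, r ⬝ᵥ G y = c * (r ⬝ᵥ y) := by
    intro y
    set s : ℝ := (r ⬝ᵥ y) / (r ⬝ᵥ r) with hs
    have hsr : s * (r ⬝ᵥ r) = r ⬝ᵥ y := div_mul_cancel₀ _ hrr.ne'
    have hy : y = s • r + (y - s • r) := by abel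
    have hh : r ⬝ᵥ (y - s • r) = 0 := by
      rw [dotProduct_sub, dotProduct_smul, smul_eq_mul, hsr, sub_self]
    have h1 : G y = s • G r + (y - s • r) := by
      conv_lhs => rw [hy]
      rw [hGadd, hGsmul, hGwall _ hh]
    rw [h1, dotProduct_add, hh, dotProduct_smul, smul_eq_mul, add_zero]
    rw [← hsr, hc]
    field_simp
  have hc0 : c ≠ 0 := by
    intro h0
    have h1 : r ⬝ᵥ G (eb.symm (ea r)) = 0 := by rw [hGc, h0, zero_mul]
    have h2 : G (eb.symm (ea r)) = r := by simp [G]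
    rw [h2] at h1
    exact hrr.ne' h1
  have hGcont : Continuous G := by
    have h1 : Continuous (ea.symm : (ι → ℝ) →ₗ[ℝ] (ι → ℝ)) :=
      LinearMap.continuous_of_finiteDimensional _
    have h2 : Continuous (eb : (ι → ℝ) →ₗ[ℝ] (ι → ℝ)) :=
      LinearMap.continuous_of_finiteDimensional _
    exact h1.comp h2
  have hcpos : 0 < c := by
    rcases lt_or_gt_of_ne hc0 with hneg | hpos
    · exfalso
      have hcont1 : Continuous (fun s : ℝ => x - s • r) := by fun_prop
      have hm1 : ∀ᶠ s in 𝓝 (0 : ℝ), x - s • r ∈ Metric.ball x ε :=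
        ev_ball _ hcont1 0 x ε (by simpa using hε)
      have hm2 : ∀ᶠ s in 𝓝 (0 : ℝ), G (x - s • r) ∈ Metric.ball x ε :=
        ev_ball (fun s : ℝ => G (x - s • r)) (hGcont.comp hcont1) 0 x ε
          (by simpa [hGx] using hε)
      obtain ⟨s, ⟨hs1, hs2⟩, hs0⟩ := (((hm1.and hm2).filter_mono nhdsWithin_le_nhds).and
        (self_mem_nhdsWithin : ∀ᶠ s in 𝓝[>] (0 : ℝ), s ∈ Set.Ioi (0 : ℝ))).exists
      have hs0' : 0 < s := hs0
      have hd : r ⬝ᵥ (x - s • r) = -(s * (r ⬝ᵥ r)) := by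
        rw [dotProduct_sub, dotProduct_smul, hrx, smul_eq_mul]; ring
      have hsp : 0 < s * (r ⬝ᵥ r) := mul_pos hs0' hrr
      have hd2 : 0 < r ⬝ᵥ G (x - s • r) := by
        rw [hGc, hd]; nlinarith
      have e1 := hwA'' _ hs1 (by rw [hd]; linarith)
      have e2 := hwA _ hs2 hd2.le
      have e3 : w (G (x - s • r)) = w (x - s • r) := by
        rw [e1, e2, ← hea, ← heb]; simp [G]
      have e4 := hinj e3
      rw [e4, hd] at hd2
      linarith
    · exact hpos
  -- neighbourhood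
  have hca : Continuous (fun z => ea.symm z) := by
    have h1 : Continuous (ea.symm : (ι → ℝ) →ₗ[ℝ] (ι → ℝ)) :=
      LinearMap.continuous_of_finiteDimensional _
    exact h1
  have hcb : Continuous (fun z => eb.symm z) := by
    have h1 : Continuous (eb.symm : (ι → ℝ) →ₗ[ℝ] (ι → ℝ)) :=
      LinearMap.continuous_of_finiteDimensional _
    exact h1
  have hn1 : ∀ᶠ z in 𝓝 (w x), ea.symm z ∈ Metric.ball x ε :=
    ev_ball _ hca (w x) x ε (by
      have : ea.symm (w x) = x := by rw [hwx]; simp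
      simpa [this] using hε)
  have hn2 : ∀ᶠ z in 𝓝 (w x), eb.symm z ∈ Metric.ball x ε :=
    ev_ball _ hcb (w x) x ε (by
      have : eb.symm (w x) = x := by rw [hwx']; simp
      simpa [this] using hε)
  filter_upwards [hn1, hn2] with z hz1 hz2
  by_cases hsgn : 0 ≤ r ⬝ᵥ (ea.symm z)
  · refine ⟨ea.symm z, ?_⟩
    rw [hwA _ hz1 hsgn, ← hea]; simp
  · push Not at hsgn
    refine ⟨eb.symm z, ?_⟩
    have hG : G (eb.symm z) = ea.symm z := by simp [G]
    have h1 : c * (r ⬝ᵥ (eb.symm z)) < 0 := by rw [← hGc, hG]; exact hsgn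
    have h2 : r ⬝ᵥ (eb.symm z) ≤ 0 := by
      by_contra h
      push Not at h
      have := mul_pos hcpos h
      linarith
    rw [hwA'' _ hz2 h2, ← heb]; simp

/-- Local surjectivity at a point on no wall. -/
lemma nhds_free (w : (ι → ℝ) → (ι → ℝ)) (hw : Continuous w) (hinj : Function.Injective w)
    (M : Finset (Matrix ι ι ℝ)) (hwM : ∀ x, ∃ A ∈ M, w x = A.mulVec x) (x : ι → ℝ)
    (ε : ℝ) (hε : 0 < ε)
    (hdis : ∀ y ∈ Metric.ball x ε, ∀ A ∈ M, ∀ A' ∈ M, A ≠ A' →
      A.mulVec y ≠ A'.mulVec y) : Set.range w ∈ 𝓝 (w x) := by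
  have hxb : x ∈ Metric.ball x ε := Metric.mem_ball_self hε
  obtain ⟨A, hA, hwA⟩ := single_matrix w hw M hwM _ (convex_ball x ε).isPreconnected x hxb hdis
  have hAinj := mulVec_injective_of_open w hinj A _ Metric.isOpen_ball x hxb hwA
  let ea : (ι → ℝ) ≃ₗ[ℝ] (ι → ℝ) := LinearEquiv.ofInjectiveEndo _ hAinj
  have hea : ∀ y, ea y = A.mulVec y := fun y => rfl
  have hwx : w x = ea x := hwA x hxb
  have hca : Continuous (fun z => ea.symm z) := by
    have h1 : Continuous (ea.symm : (ι → ℝ) →ₗ[ℝ] (ι → ℝ)) :=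
      LinearMap.continuous_of_finiteDimensional _
    exact h1
  have hn1 : ∀ᶠ z in 𝓝 (w x), ea.symm z ∈ Metric.ball x ε :=
    ev_ball _ hca (w x) x ε (by
      have : ea.symm (w x) = x := by rw [hwx]; simp
      simpa [this] using hε)
  filter_upwards [hn1] with z hz1
  refine ⟨ea.symm z, ?_⟩
  rw [hwA _ hz1, ← hea]; simp

open Classical in
/-- The walls: nonzero rows of differences of two matrices of `M`. -/
noncomputable def walls (M : Finset (Matrix ι ι ℝ)) : Finset (ι → ℝ) :=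
  (((M ×ˢ M) ×ˢ (Finset.univ : Finset ι)).image (fun p => (p.1.1 - p.1.2) p.2)).filter
    (fun r => r ≠ 0)

lemma walls_ne {M : Finset (Matrix ι ι ℝ)} {r : ι → ℝ} (hr : r ∈ walls M) :
    r ≠ 0 := by
  unfold walls at hr
  simp only [Finset.mem_filter] at hr
  exact hr.2

lemma walls_spec {M : Finset (Matrix ι ι ℝ)} {A A' : Matrix ι ι ℝ}
    (hA : A ∈ M) (hA' : A' ∈ M) (hne : A ≠ A') :
    ∃ r ∈ walls M, ∀ y, A.mulVec y = A'.mulVec y → r ⬝ᵥ y = 0 := by
  classical
  have h1 : A - A' ≠ 0 := sub_ne_zero.mpr hne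
  have h2 : ∃ i, (A - A') i ≠ 0 := by
    by_contra h
    push Not at h
    exact h1 (funext h)
  obtain ⟨i, hi⟩ := h2
  refine ⟨(A - A') i, ?_, ?_⟩
  · unfold walls
    simp only [Finset.mem_filter, Finset.mem_image, Finset.mem_product, Finset.mem_univ, and_true]
    exact ⟨⟨((A, A'), i), ⟨hA, hA'⟩, rfl⟩, hi⟩
  · intro y hy
    have h3 : (A - A').mulVec y = 0 := by rw [Matrix.sub_mulVec, hy, sub_self]
    have h4 := congrFun h3 i
    exact h4

/-- Intersection of two walls. -/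
def K2 (r r' : ι → ℝ) : Submodule ℝ (ι → ℝ) := LinearMap.ker (dotL r) ⊓ LinearMap.ker (dotL r')

lemma mem_K2 {r r' y : ι → ℝ} : y ∈ K2 r r' ↔ r ⬝ᵥ y = 0 ∧ r' ⬝ᵥ y = 0 := by
  simp [K2]

/-- Two walls which are really different. -/
def Indep (r r' : ι → ℝ) : Prop := ∃ y, r ⬝ᵥ y = 0 ∧ r' ⬝ᵥ y ≠ 0

lemma finrank_K2 {r r' : ι → ℝ} (hr : r ≠ 0) (h : Indep r r') :
    Module.finrank ℝ (K2 r r') + 2 ≤ Module.finrank ℝ (ι → ℝ) := by
  obtain ⟨y, hy1, hy2⟩ := h
  have h1 : K2 r r' < LinearMap.ker (dotL r) := by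
    refine lt_of_le_of_ne inf_le_left ?_
    intro heq
    have : y ∈ K2 r r' := by rw [heq]; simpa using hy1
    exact hy2 (mem_K2.mp this).2
  have h2 : LinearMap.ker (dotL r) < ⊤ := by
    refine lt_top_iff_ne_top.mpr ?_
    intro heq
    have : r ∈ LinearMap.ker (dotL r) := by rw [heq]; trivial
    have h3 : r ⬝ᵥ r = 0 := by simpa using this
    exact (dot_self_pos hr).ne' h3
  have h3 := Submodule.finrank_lt_finrank_of_lt h1
  have h4 := Submodule.finrank_lt_finrank_of_lt h2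
  rw [finrank_top] at h4
  omega

/-- Main local statement: the image is a neighbourhood of `w x` unless `x` lies on two
different walls. -/
lemma nhds_good [DecidableEq ι] (w : (ι → ℝ) → (ι → ℝ)) (hw : Continuous w)
    (hinj : Function.Injective w)
    (M : Finset (Matrix ι ι ℝ)) (hwM : ∀ x, ∃ A ∈ M, w x = A.mulVec x) (x : ι → ℝ)
    (hx : ∀ r ∈ walls M, ∀ r' ∈ walls M, Indep r r' → x ∉ K2 r r') :
    Set.range w ∈ 𝓝 (w x) := by
  classical
  -- a ball on which walls not through `x` are avoided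
  have hball : ∃ ε > 0, ∀ y ∈ Metric.ball x ε, ∀ r ∈ walls M, r ⬝ᵥ x ≠ 0 → r ⬝ᵥ y ≠ 0 := by
    have h1 : ∀ r ∈ walls M, ∀ᶠ y in 𝓝 x, (r ⬝ᵥ x ≠ 0 → r ⬝ᵥ y ≠ 0) := by
      intro r _
      by_cases h : r ⬝ᵥ x = 0
      · exact Filter.Eventually.of_forall (fun y hy => absurd h hy)
      · have h2 : ∀ᶠ y in 𝓝 x, r ⬝ᵥ y ≠ 0 :=
          (dotL_continuous r).continuousAt.eventually_ne h
        filter_upwards [h2] with y hy _ using hy
    have h2 : ∀ᶠ y in 𝓝 x, ∀ r ∈ walls M, (r ⬝ᵥ x ≠ 0 → r ⬝ᵥ y ≠ 0) :=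
      (Finset.eventually_all (walls M)).mpr h1
    obtain ⟨ε, hε, h3⟩ := Metric.eventually_nhds_iff_ball.mp h2
    exact ⟨ε, hε, fun y hy r hr => h3 y hy r hr⟩
  obtain ⟨ε, hε, hball⟩ := hball
  by_cases hcase : ∃ r ∈ walls M, r ⬝ᵥ x = 0
  · obtain ⟨r, hr, hrx⟩ := hcase
    refine nhds_wall w hw hinj M hwM x r (walls_ne hr) hrx ε hε ?_
    intro y hy hry A hA A' hA' hne heq
    obtain ⟨r', hr', hspec⟩ := walls_spec hA hA' hne
    have h1 : r' ⬝ᵥ y = 0 := hspec y heq
    have h2 : r' ⬝ᵥ x = 0 := by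
      by_contra h
      exact hball y hy r' hr' h h1
    exact hx r' hr' r hr ⟨y, h1, hry⟩ (mem_K2.mpr ⟨h2, hrx⟩)
  · push Not at hcase
    refine nhds_free w hw hinj M hwM x ε hε ?_
    intro y hy A hA A' hA' hne heq
    obtain ⟨r', hr', hspec⟩ := walls_spec hA hA' hne
    exact hball y hy r' hr' (hcase r' hr') (hspec y heq)

/-- The complement of a finite union of proper subspaces is dense. -/
lemma dense_compl_finset (S : Finset (Submodule ℝ (ι → ℝ))) (hS : ∀ E ∈ S, E ≠ ⊤) :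
    Dense {z : ι → ℝ | ∀ E ∈ S, z ∉ E} := by
  have h1 : ∀ E ∈ S, Dense ((E : Set (ι → ℝ))ᶜ) := by
    intro E hE
    rw [← interior_eq_empty_iff_dense_compl]
    by_contra h
    exact hS E hE (Submodule.eq_top_of_nonempty_interior' E (Set.nonempty_iff_ne_empty.mpr h))
  have h2 : ∀ E ∈ S, IsOpen ((E : Set (ι → ℝ))ᶜ) := fun E _ =>
    (Submodule.closed_of_finiteDimensional E).isOpen_compl
  have h3 : {z : ι → ℝ | ∀ E ∈ S, z ∉ E} = ⋂ E ∈ S, ((E : Set (ι → ℝ))ᶜ) := by
    ext z; simp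
  rw [h3]
  exact dense_biInter_of_isOpen (S := (S : Set (Submodule ℝ (ι → ℝ)))) h2
    S.countable_toSet h1

/-- The complement of a finite union of subspaces of codimension at least two is preconnected. -/
lemma isPreconnected_compl (S : Finset (Submodule ℝ (ι → ℝ)))
    (hS : ∀ E ∈ S, Module.finrank ℝ E + 2 ≤ Module.finrank ℝ (ι → ℝ)) :
    IsPreconnected {z : ι → ℝ | ∀ E ∈ S, z ∉ E} := by
  classical
  apply isPreconnected_of_forall_pair
  intro a ha b hb
  -- a point outside the spans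
  let T : Finset (Submodule ℝ (ι → ℝ)) :=
    S.image (fun E => E ⊔ Submodule.span ℝ {a}) ∪ S.image (fun E => E ⊔ Submodule.span ℝ {b})
  have hT : ∀ F ∈ T, F ≠ ⊤ := by
    have key : ∀ E ∈ S, ∀ u : ι → ℝ, E ⊔ Submodule.span ℝ {u} ≠ ⊤ := by
      intro E hE u h
      have h1 := Submodule.finrank_add_le_finrank_add_finrank E (Submodule.span ℝ {u})
      have h2 : Module.finrank ℝ (Submodule.span ℝ {u}) ≤ 1 := by
        have := finrank_span_le_card (R := ℝ) ({u} : Set (ι → ℝ))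
        simpa using this
      rw [h, finrank_top] at h1
      have h3 := hS E hE
      omega
    intro F hF
    simp only [T, Finset.mem_union, Finset.mem_image] at hF
    rcases hF with ⟨E, hE, rfl⟩ | ⟨E, hE, rfl⟩
    · exact key E hE a
    · exact key E hE b
  obtain ⟨c, hc⟩ : ∃ c : ι → ℝ, ∀ F ∈ T, c ∉ F := (dense_compl_finset T hT).nonempty
  have hseg : ∀ u : ι → ℝ, (∀ E ∈ S, u ∉ E) → (∀ E ∈ S, c ∉ E ⊔ Submodule.span ℝ {u}) →
      segment ℝ u c ⊆ {z : ι → ℝ | ∀ E ∈ S, z ∉ E} := by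
    intro u hu hcu z hz E hE hzE
    obtain ⟨s, t, hs, ht, hst, rfl⟩ := hz
    by_cases h0 : t = 0
    · subst h0
      have : s = 1 := by linarith
      subst this
      apply hu E hE
      simpa using hzE
    · apply hcu E hE
      have h1 : c = t⁻¹ • (s • u + t • c) + (-(t⁻¹ * s)) • u := by
        rw [smul_add, smul_smul, smul_smul, inv_mul_cancel₀ h0, one_smul, neg_smul]
        abel
      rw [h1]
      exact Submodule.add_mem_sup (Submodule.smul_mem _ _ hzE)
        (Submodule.smul_mem _ _ (Submodule.mem_span_singleton_self u))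
  refine ⟨segment ℝ a c ∪ segment ℝ b c, ?_, Or.inl (left_mem_segment ℝ a c),
    Or.inr (left_mem_segment ℝ b c), ?_⟩
  · apply Set.union_subset
    · exact hseg a ha (fun E hE => hc _ (by
        simp only [T, Finset.mem_union, Finset.mem_image]
        exact Or.inl ⟨E, hE, rfl⟩))
    · exact hseg b hb (fun E hE => hc _ (by
        simp only [T, Finset.mem_union, Finset.mem_image]
        exact Or.inr ⟨E, hE, rfl⟩))
  · exact IsPreconnected.union c (right_mem_segment ℝ a c) (right_mem_segment ℝ b c)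
      (convex_segment a c).isPreconnected (convex_segment b c).isPreconnected

/-- A continuous piecewise linear self map of `ι → ℝ` with a continuous left inverse is
surjective, so its left inverse is a two-sided inverse. -/
theorem fd [DecidableEq ι] (w v : (ι → ℝ) → (ι → ℝ))
    (hw : Continuous w) (hv : Continuous v) (M N : Finset (Matrix ι ι ℝ))
    (hwM : ∀ x, ∃ A ∈ M, w x = A.mulVec x) (_hvN : ∀ x, ∃ A ∈ N, v x = A.mulVec x)
    (hvw : ∀ x, v (w x) = x) : ∀ x, w (v x) = x := by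
  classical
  have hinj : Function.Injective w := fun a b h => by rw [← hvw a, ← hvw b, h]
  have hclosed : IsClosed (Set.range w) := by
    have : Set.range w = {x | w (v x) = x} := by
      ext x
      constructor
      · rintro ⟨y, rfl⟩
        simp only [Set.mem_ofPred_eq, hvw]
      · intro hx
        exact ⟨v x, hx⟩
    rw [this]
    exact isClosed_eq (hw.comp hv) continuous_id
  -- the bad subspaces in the target
  let P : Finset ((Matrix ι ι ℝ) × ((ι → ℝ) × (ι → ℝ))) :=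
    (M ×ˢ ((walls M) ×ˢ (walls M))).filter (fun p => Indep p.2.1 p.2.2)
  let S : Finset (Submodule ℝ (ι → ℝ)) := P.image (fun p => (K2 p.2.1 p.2.2).map p.1.mulVecLin)
  have hS : ∀ E ∈ S, Module.finrank ℝ E + 2 ≤ Module.finrank ℝ (ι → ℝ) := by
    intro E hE
    obtain ⟨p, hp, rfl⟩ := Finset.mem_image.mp hE
    have hp' := Finset.mem_filter.mp hp
    simp only [Finset.mem_product] at hp'
    have h1 := finrank_K2 (walls_ne hp'.1.2.1) hp'.2
    have h2 := Submodule.finrank_map_le p.1.mulVecLin (K2 p.2.1 p.2.2)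
    omega
  set Ω : Set (ι → ℝ) := {z : ι → ℝ | ∀ E ∈ S, z ∉ E} with hΩ
  have hpre : IsPreconnected Ω := isPreconnected_compl S hS
  have hΩopen : ∀ z ∈ Ω, z ∈ Set.range w → Set.range w ∈ 𝓝 z := by
    rintro z hz ⟨x, rfl⟩
    apply nhds_good w hw hinj M hwM x
    intro r hr r' hr' hind hx
    obtain ⟨A, hA, hwA⟩ := hwM x
    apply hz ((K2 r r').map A.mulVecLin)
    · apply Finset.mem_image.mpr
      exact ⟨(A, (r, r')), by
        apply Finset.mem_filter.mpr
        exact ⟨by simp [hA, hr, hr'], hind⟩, rfl⟩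
    · exact ⟨x, hx, by rw [hwA]; rfl⟩
  have hdense : Dense Ω := by
    apply dense_compl_finset
    intro E hE h
    have := hS E hE
    rw [h, finrank_top] at this
    omega
  -- the image meets Ω
  have hne : (Ω ∩ Set.range w).Nonempty := by
    let S' : Finset (Submodule ℝ (ι → ℝ)) :=
      (((walls M) ×ˢ (walls M)).filter (fun p => Indep p.1 p.2)).image (fun p => K2 p.1 p.2)
    have hS' : ∀ E ∈ S', E ≠ ⊤ := by
      intro E hE h
      obtain ⟨p, hp, rfl⟩ := Finset.mem_image.mp hE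
      have hp' := Finset.mem_filter.mp hp
      simp only [Finset.mem_product] at hp'
      have h1 := finrank_K2 (walls_ne hp'.1.1) hp'.2
      rw [h, finrank_top] at h1
      omega
    obtain ⟨x, hx⟩ := (dense_compl_finset S' hS').nonempty
    have h1 : Set.range w ∈ 𝓝 (w x) := by
      apply nhds_good w hw hinj M hwM x
      intro r hr r' hr' hind
      apply hx
      apply Finset.mem_image.mpr
      exact ⟨(r, r'), Finset.mem_filter.mpr ⟨by simp [hr, hr'], hind⟩, rfl⟩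
    obtain ⟨z, hz1, hz2⟩ := hdense.inter_nhds_nonempty h1
    exact ⟨z, hz1, hz2⟩
  have hsub : Ω ⊆ Set.range w := by
    have := hpre.subset_of_closure_inter_subset (u := interior (Set.range w)) isOpen_interior ?_ ?_
    · exact this.trans interior_subset
    · obtain ⟨z, hz1, hz2⟩ := hne
      exact ⟨z, hz1, mem_interior_iff_mem_nhds.mpr (hΩopen z hz1 hz2)⟩
    · rintro z ⟨hz1, hz2⟩
      have h1 : z ∈ Set.range w := by
        have : closure (interior (Set.range w)) ⊆ Set.range w :=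
          hclosed.closure_subset_iff.mpr interior_subset
        exact this hz1
      exact mem_interior_iff_mem_nhds.mpr (hΩopen z hz2 h1)
  have hsurj : Set.range w = Set.univ := by
    rw [Set.eq_univ_iff_forall]
    intro z
    have h1 : z ∈ closure Ω := hdense z
    exact (hclosed.closure_subset_iff.mpr hsub) h1
  intro x
  have hx : x ∈ Set.range w := by rw [hsurj]; trivial
  obtain ⟨y, rfl⟩ := hx
  rw [hvw]

end Pool.Agent.Helper45.HopfFD
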